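import Pool.Agent.H96.AL.Targets1

/-!
Module FL for MP_c9ef16_gt: existence of gradient curves.
-/

open Topology Set Filter Real

namespace Pool.Agent.H29.AL

open Pool.Agent.H96.AL

variable {X : Type} [MetricSpace X]

lemma seg_mono {g : X → ℝ} {L ε : ℝ} {α : ℝ → X} {r r' r'' : ℝ} {z : X} {a : ℝ}
    (h : Seg g L ε α r r' z a) (hr : r'' ≤ r') : Seg g L ε α r r'' z a where
  near := h.near
  nonneg := h.nonneg
  le := h.le
  speed := fun s hs t ht => h.speed s ⟨hs.1, hs.2.trans hr⟩ t ⟨ht.1, ht.2.trans hr⟩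
  evi := fun y θ hθ s t h1 h2 h3 => h.evi y θ hθ s t h1 h2 (h3.trans hr)
  en := fun s t h1 h2 h3 => h.en s t h1 h2 (h3.trans hr)
  sl := h.sl

lemma aflow_mono {g : X → ℝ} {L ε : ℝ} {α : ℝ → X} {T T' : ℝ} (h : AFlow g L ε α T)
    (hT : T' ≤ T) : AFlow g L ε α T' where
  lip := fun s hs t ht => h.lip s ⟨hs.1, hs.2.trans hT⟩ t ⟨ht.1, ht.2.trans hT⟩
  piece := by
    intro r hr
    obtain ⟨r', z, a, h1, h2, h3⟩ := h.piece r ⟨hr.1, hr.2.trans_le hT⟩
    exact ⟨min r' T', z, a, lt_min h1 hr.2, min_le_right _ _, seg_mono h3 (min_le_left _ _)⟩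

/-- The limit of the approximate gradient curves. -/
lemma approx (hAF : T_AF) (hCM : T_CM) {D : ℝ} (hSp : Sp X D) {g : X → ℝ} {L Λ : ℝ}
    (hL : 0 ≤ L) (hΛ : 0 ≤ Λ) (hLip : Lip L g) (hSC : SC Λ g) (x : X) :
    ∃ α : ℝ → X, α 0 = x ∧ ∀ T > 0, ∀ e > 0, ∃ (α' : ℝ → X) (ε' : ℝ), 0 < ε' ∧ ε' ≤ e ∧
      AFlow g L ε' α' T ∧ ∀ t ∈ Icc (0 : ℝ) T, dist (α' t) (α t) ≤ e := by
  have := hSp.compact
  have hD1 := hSp.one_le
  have hpos : ∀ n : ℕ, (0 : ℝ) < (n : ℝ) + 1 := fun n => by positivity
  have hex : ∀ n : ℕ, ∃ α : ℝ → X, α 0 = x ∧ AFlow g L (1 / ((n : ℝ) + 1)) α ((n : ℝ) + 1) :=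
    fun n => hAF X D hSp g L Λ hL hΛ hLip hSC x _ _ (by have := hpos n; positivity)
      (hpos n).le
  choose β hβ0 hβ using hex
  set c : ℝ → ℝ := fun t => exp (2 * Λ * t) * (2 * (1 + L + 3 * Λ * D)) * t with hc
  have hK : 0 < 2 * (1 + L + 3 * Λ * D) := by positivity
  have hcpos : ∀ t, 0 ≤ t → 0 ≤ c t := fun t ht => by
    simp only [hc]; positivity
  have hcmono : ∀ s t, 0 ≤ s → s ≤ t → c s ≤ c t := by
    intro s t hs hst
    simp only [hc]
    apply mul_le_mul _ hst hs (by positivity)
    apply mul_le_mul_of_nonneg_right _ hK.le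
    apply exp_le_exp.2
    exact mul_le_mul_of_nonneg_left hst (by positivity)
  have hclose : ∀ t, 0 ≤ t → ∀ n m : ℕ, t ≤ (n : ℝ) + 1 → t ≤ (m : ℝ) + 1 →
      dist (β n t) (β m t) ^ 2 ≤ c t * (1 / ((n : ℝ) + 1) + 1 / ((m : ℝ) + 1)) := by
    intro t ht n m hn hm
    have h1 : (1 : ℝ) / ((n : ℝ) + 1) ≤ 1 := by
      rw [div_le_one (hpos n)]
      have : (0 : ℝ) ≤ n := Nat.cast_nonneg n
      linarith
    have h2 : (1 : ℝ) / ((m : ℝ) + 1) ≤ 1 := by
      rw [div_le_one (hpos m)]
      have : (0 : ℝ) ≤ m := Nat.cast_nonneg m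
      linarith
    have h3 := hCM X D hSp g L Λ hL hΛ hLip hSC (β n) (β m) _ _ t
      (by have := hpos n; positivity) h1 (by have := hpos m; positivity) h2 ht
      (aflow_mono (hβ n) hn) (aflow_mono (hβ m) hm) t ⟨ht, le_rfl⟩
    rw [hβ0 n, hβ0 m, dist_self] at h3
    have e : c t * (1 / ((n : ℝ) + 1) + 1 / ((m : ℝ) + 1))
      = exp (2 * Λ * t) * ((0 : ℝ) ^ 2 + 2 * (1 + L + 3 * Λ * D)
        * (1 / ((n : ℝ) + 1) + 1 / ((m : ℝ) + 1)) * t) := by
      simp only [hc]; ring
    rw [e]; exact h3
  have hclose2 : ∀ t, 0 ≤ t → ∀ n m : ℕ, t ≤ (n : ℝ) + 1 → n ≤ m →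
      dist (β n t) (β m t) ^ 2 ≤ 2 * c t / ((n : ℝ) + 1) := by
    intro t ht n m hn hnm
    have hnm' : (n : ℝ) ≤ m := Nat.cast_le.2 hnm
    have h1 := hclose t ht n m hn (by linarith)
    have h2 : (1 : ℝ) / ((m : ℝ) + 1) ≤ 1 / ((n : ℝ) + 1) :=
      one_div_le_one_div_of_le (hpos n) (by linarith)
    have h3 : c t * (1 / ((n : ℝ) + 1) + 1 / ((m : ℝ) + 1))
      ≤ c t * (1 / ((n : ℝ) + 1) + 1 / ((n : ℝ) + 1)) :=
      mul_le_mul_of_nonneg_left (by linarith) (hcpos t ht)
    have e : c t * (1 / ((n : ℝ) + 1) + 1 / ((n : ℝ) + 1)) = 2 * c t / ((n : ℝ) + 1) := by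
      ring
    linarith
  -- choice of a large index
  have hN : ∀ T, 0 ≤ T → ∀ e > 0, ∃ N : ℕ, T ≤ (N : ℝ) + 1 ∧ 1 / ((N : ℝ) + 1) ≤ e ∧
      2 * c T / ((N : ℝ) + 1) < e ^ 2 := by
    intro T hT e he
    obtain ⟨N, hN⟩ := exists_nat_gt (T + 1 / e + 2 * c T / e ^ 2)
    have h0 := hcpos T hT
    have h1 : 0 ≤ 1 / e := by positivity
    have h2 : 0 ≤ 2 * c T / e ^ 2 := by positivity
    refine ⟨N, by linarith, ?_, ?_⟩
    · rw [div_le_iff₀ (hpos N)]
      have h3 : 1 / e ≤ (N : ℝ) + 1 := by linarith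
      rw [div_le_iff₀ he] at h3
      linarith
    · rw [div_lt_iff₀ (hpos N)]
      have h3 : 2 * c T / e ^ 2 < (N : ℝ) + 1 := by linarith
      rw [div_lt_iff₀ (by positivity)] at h3
      linarith
  have hlim : ∀ t : ℝ, ∃ l : X, 0 ≤ t → Tendsto (fun n => β n t) atTop (𝓝 l) := by
    intro t
    by_cases ht : 0 ≤ t
    · have hC : CauchySeq (fun n => β n t) := by
        rw [Metric.cauchySeq_iff']
        intro e he
        obtain ⟨N, h1, h2, h3⟩ := hN t ht e he
        refine ⟨N, fun n hn => ?_⟩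
        have h4 := hclose2 t ht N n h1 hn
        rw [dist_comm]
        exact lt_of_pow_lt_pow_left₀ 2 he.le (h4.trans_lt h3)
      obtain ⟨l, hl⟩ := cauchySeq_tendsto_of_complete hC
      exact ⟨l, fun _ => hl⟩
    · exact ⟨x, fun h => absurd h ht⟩
  choose α hα using hlim
  refine ⟨α, ?_, ?_⟩
  · have h1 := hα 0 le_rfl
    have h2 : Tendsto (fun n => β n 0) atTop (𝓝 x) := by
      simp only [hβ0]; exact tendsto_const_nhds
    exact tendsto_nhds_unique h1 h2
  · intro T hT e he
    obtain ⟨N, h1, h2, h3⟩ := hN T hT.le e he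
    refine ⟨β N, 1 / ((N : ℝ) + 1), by have := hpos N; positivity, h2, aflow_mono (hβ N) h1, ?_⟩
    intro t ht
    have h4 : Tendsto (fun n => dist (β N t) (β n t)) atTop (𝓝 (dist (β N t) (α t))) :=
      tendsto_const_nhds.dist (hα t ht.1)
    refine le_of_tendsto h4 ?_
    filter_upwards [eventually_ge_atTop N] with n hn
    have h5 := hclose2 t ht.1 N n (ht.2.trans h1) hn
    have h6 : 2 * c t / ((N : ℝ) + 1) ≤ 2 * c T / ((N : ℝ) + 1) := by
      apply div_le_div_of_nonneg_right _ (hpos N).le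
      linarith [hcmono t T ht.1 ht.2]
    exact le_of_lt (lt_of_pow_lt_pow_left₀ 2 he.le ((h5.trans h6).trans_lt h3))

/-- Integration over the pieces. -/
lemma piece_int (hRI : T_RI) {g : X → ℝ} {L ε : ℝ} {α : ℝ → X} {T : ℝ}
    (h : AFlow g L ε α T) {s t : ℝ} (hs : 0 ≤ s) (hst : s ≤ t) (ht : t ≤ T) {φ ψ : ℝ → ℝ}
    (hφ : ContinuousOn φ (Icc s t)) (hψ : ContinuousOn ψ (Icc s t))
    (hinc : ∀ r ∈ Ico s t, ∀ r' z a, Seg g L ε α r r' z a → ∀ s' t', r ≤ s' → s' ≤ t' →
      t' ≤ r' → φ t' - φ s' ≤ (t' - s') * ψ r) :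
    φ t - φ s ≤ ∫ r in s..t, ψ r := by
  refine hRI φ ψ s t hst hφ hψ ?_
  intro r hr e he
  obtain ⟨r', z, a, h1, h2, h3⟩ := h.piece r ⟨hs.trans hr.1, hr.2.trans_le ht⟩
  refine ⟨r', h1, fun s' t' h4 h5 h6 h7 => ?_⟩
  refine (hinc r hr r' z a h3 s' t' h4 h5 h6).trans ?_
  exact mul_le_mul_of_nonneg_left (by linarith) (by linarith)

lemma aflow_cont {g : X → ℝ} {L ε : ℝ} {α : ℝ → X} {T : ℝ} (h : AFlow g L ε α T)
    {s t : ℝ} (hs : 0 ≤ s) (ht : t ≤ T) : ContinuousOn α (Icc s t) := by
  have h1 : LipschitzOnWith (Real.toNNReal L) α (Icc s t) := by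
    rw [lipschitzOnWith_iff_dist_le_mul]
    intro a ha b hb
    have h2 := h.lip a ⟨hs.trans ha.1, ha.2.trans ht⟩ b ⟨hs.trans hb.1, hb.2.trans ht⟩
    refine h2.trans ?_
    rw [Real.dist_eq]
    exact mul_le_mul_of_nonneg_right (Real.le_coe_toNNReal L) (abs_nonneg _)
  exact h1.continuousOn

lemma cont_distl {α : ℝ → X} {S : Set ℝ} (h : ContinuousOn α S) (y : X) :
    ContinuousOn (fun r => dist (α r) y) S :=
  (continuous_id.dist continuous_const).comp_continuousOn h

lemma cont_distr {α : ℝ → X} {S : Set ℝ} (h : ContinuousOn α S) (y : X) :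
    ContinuousOn (fun r => dist y (α r)) S :=
  (continuous_const.dist continuous_id).comp_continuousOn h

lemma lip_cont {L : ℝ} {g : X → ℝ} (h : Lip L g) : Continuous g := by
  have h1 : LipschitzWith (Real.toNNReal L) g := by
    rw [lipschitzWith_iff_dist_le_mul]
    intro a b
    rw [Real.dist_eq]
    exact (h a b).trans (mul_le_mul_of_nonneg_right (Real.le_coe_toNNReal L) dist_nonneg)
  exact h1.continuous

lemma sq_close {D : ℝ} (hD : ∀ x y : X, dist x y ≤ D) {p q y : X} {e : ℝ}
    (h : dist p q ≤ e) : |dist p y ^ 2 / 2 - dist q y ^ 2 / 2| ≤ D * e := by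
  have h1 : |dist p y - dist q y| ≤ dist p q := abs_dist_sub_le p q y
  have h2 : dist p y ^ 2 / 2 - dist q y ^ 2 / 2
    = (dist p y - dist q y) * ((dist p y + dist q y) / 2) := by ring
  have hp := hD p y
  have hq := hD q y
  have h3 : 0 ≤ (dist p y + dist q y) / 2 := by positivity
  rw [h2, abs_mul, abs_of_nonneg h3, mul_comm D e]
  apply mul_le_mul (h1.trans h) (by linarith) h3
  exact dist_nonneg.trans h

theorem fl (hAF : T_AF) (hCM : T_CM) (hRI : T_RI) : T_FL := by
  intro X _ D hSp g L Λ hL hΛ hLip hSC x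
  have := hSp.compact
  have hD1 := hSp.one_le
  obtain ⟨α, hα0, hα⟩ := approx hAF hCM hSp hL hΛ hLip hSC x
  have hgc : Continuous g := lip_cont hLip
  have hlip : ∀ s t : ℝ, 0 ≤ s → 0 ≤ t → dist (α s) (α t) ≤ L * |s - t| := by
    intro s t hs ht
    refine le_of_forall_pos_le_add fun e he => ?_
    obtain ⟨α', ε', h1, h2, h3, h4⟩ := hα (s + t + 1) (by linarith) (e / 2) (by linarith)
    have hsI : s ∈ Icc (0 : ℝ) (s + t + 1) := ⟨hs, by linarith⟩
    have htI : t ∈ Icc (0 : ℝ) (s + t + 1) := ⟨ht, by linarith⟩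
    have h5 := h3.lip s hsI t htI
    have h6 := dist_triangle4 (α s) (α' s) (α' t) (α t)
    have h7 := h4 s hsI
    have h8 := h4 t htI
    rw [dist_comm] at h7
    linarith
  have hαc : ∀ s t : ℝ, 0 ≤ s → ContinuousOn α (Icc s t) := by
    intro s t hs
    have h1 : LipschitzOnWith (Real.toNNReal L) α (Icc s t) := by
      rw [lipschitzOnWith_iff_dist_le_mul]
      intro a ha b hb
      refine (hlip a b (hs.trans ha.1) (hs.trans hb.1)).trans ?_
      rw [Real.dist_eq]
      exact mul_le_mul_of_nonneg_right (Real.le_coe_toNNReal L) (abs_nonneg _)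
    exact h1.continuousOn
  refine ⟨α, hα0, ⟨hlip, ?_, ?_, ?_⟩⟩
  · -- evi
    intro y Θ hΘ hDG s t hs hst
    have hunif : UniformContinuous Θ := CompactSpace.uniformContinuous_of_continuous hΘ
    rw [Metric.uniformContinuous_iff] at hunif
    have hkey : ∀ ω > 0, dist (α t) y ^ 2 / 2 - dist (α s) y ^ 2 / 2
        ≤ (∫ r in s..t, Θ (α r)) + (3 * (t - s) + 2 * D) * ω := by
      intro ω hω
      obtain ⟨d, hd, hdΘ⟩ := hunif ω hω
      set e := min (d / 2) ω with he
      have hepos : 0 < e := lt_min (by linarith) hω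
      have hed : e < d := lt_of_le_of_lt (min_le_left _ _) (by linarith)
      have heω : e ≤ ω := min_le_right _ _
      obtain ⟨α', ε', h1, h2, h3, h4⟩ := hα (t + 1) (by linarith) e hepos
      have hcα' := aflow_cont h3 hs (by linarith : t ≤ t + 1)
      have hφ : ContinuousOn (fun r => dist (α' r) y ^ 2 / 2) (Icc s t) :=
        ((cont_distl hcα' y).pow 2).div_const 2
      have hψ' : ContinuousOn (fun r => Θ (α' r)) (Icc s t) := hΘ.comp_continuousOn hcα'
      have hψ : ContinuousOn (fun r => Θ (α' r) + 2 * ω) (Icc s t) :=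
        hψ'.add continuousOn_const
      have h5 := piece_int hRI h3 hs hst (by linarith) hφ hψ (by
        intro r hr r' z a hseg s' t' h5 h6 h7
        have h8 := hseg.evi y (-Θ z) (hDG z) s' t' h5 h6 h7
        refine h8.trans ?_
        apply mul_le_mul_of_nonneg_left _ (by linarith)
        have h9 : dist z (α' r) < d := (hseg.near.trans h2).trans_lt hed
        have h10 := hdΘ h9
        rw [Real.dist_eq] at h10
        have h11 := (abs_lt.1 h10).2
        linarith)
      have hψ2 : ContinuousOn (fun r => Θ (α r)) (Icc s t) :=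
        hΘ.comp_continuousOn (hαc s t hs)
      have hψ3 : ContinuousOn (fun r => Θ (α r) + 3 * ω) (Icc s t) :=
        hψ2.add continuousOn_const
      have h6 : (∫ r in s..t, (Θ (α' r) + 2 * ω)) ≤ ∫ r in s..t, (Θ (α r) + 3 * ω) := by
        apply intervalIntegral.integral_mono_on hst
        · exact hψ.intervalIntegrable_of_Icc hst
        · exact hψ3.intervalIntegrable_of_Icc hst
        · intro r hr
          have h7 := h4 r ⟨hs.trans hr.1, by linarith [hr.2]⟩
          have h10 := hdΘ (h7.trans_lt hed)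
          rw [Real.dist_eq] at h10
          have h11 := (abs_lt.1 h10).2
          linarith
      have h7 : (∫ r in s..t, (Θ (α r) + 3 * ω))
          = (∫ r in s..t, Θ (α r)) + (t - s) * (3 * ω) := by
        rw [intervalIntegral.integral_add (hψ2.intervalIntegrable_of_Icc hst)
          intervalIntegrable_const]
        rw [intervalIntegral.integral_const, smul_eq_mul]
      have h8 := abs_le.1 (sq_close hSp.diam (y := y) (h4 t ⟨by linarith, by linarith⟩))
      have h9 := abs_le.1 (sq_close hSp.diam (y := y) (h4 s ⟨by linarith, by linarith⟩))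
      have h10 : D * e ≤ D * ω := mul_le_mul_of_nonneg_left heω (by linarith)
      beta_reduce at h5
      linarith [h8.1, h9.2]
    refine le_of_forall_pos_le_add fun e he => ?_
    have hden : 0 < 3 * (t - s) + 2 * D := by
      have : 0 ≤ t - s := by linarith
      linarith
    have h1 := hkey (e / (3 * (t - s) + 2 * D)) (by positivity)
    have h2 : (3 * (t - s) + 2 * D) * (e / (3 * (t - s) + 2 * D)) = e := by
      field_simp
    rw [h2] at h1
    exact h1
  · -- en1
    intro s t κ hs hst hκ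
    have hkey : ∀ e > 0, κ * dist (α s) (α t) - κ ^ 2 / 4 * (t - s)
        ≤ g (α t) - g (α s) + (2 * κ + 2 * L + (t - s)) * e := by
      intro e he
      obtain ⟨α', ε', h1, h2, h3, h4⟩ := hα (t + 1) (by linarith) e he
      have hcα' := aflow_cont h3 hs (by linarith : t ≤ t + 1)
      have hφ : ContinuousOn (fun r => κ * dist (α' s) (α' r) - g (α' r)) (Icc s t) :=
        (continuousOn_const.mul (cont_distr hcα' (α' s))).sub
          (hgc.comp_continuousOn hcα')
      have h5 := piece_int hRI h3 hs hst (by linarith) (ψ := fun _ => κ ^ 2 / 4 + ε') hφ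
        continuousOn_const (by
        intro r hr r' z a hseg s' t' h5 h6 h7
        have h8 := hseg.en s' t' h5 h6 h7
        have h9 := hseg.speed s' ⟨h5, h6.trans h7⟩ t' ⟨h5.trans h6, h7⟩
        rw [abs_sub_comm, abs_of_nonneg (by linarith)] at h9
        have h10 := dist_triangle (α' s) (α' s') (α' t')
        have h11 : κ * dist (α' s) (α' t') ≤ κ * (dist (α' s) (α' s') + a * (t' - s')) := by
          apply mul_le_mul_of_nonneg_left _ hκ
          rw [← h9]; exact h10
        have h12 : 0 ≤ (t' - s') * (κ / 2 - a) ^ 2 := mul_nonneg (by linarith) (sq_nonneg _)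
        beta_reduce
        nlinarith)
      rw [intervalIntegral.integral_const, smul_eq_mul] at h5
      beta_reduce at h5
      rw [dist_self, mul_zero, zero_sub] at h5
      have h6 := h4 t ⟨by linarith, by linarith⟩
      have h7 := h4 s ⟨by linarith, by linarith⟩
      have h8 := abs_le.1 (hLip (α' t) (α t))
      have h9 := abs_le.1 (hLip (α' s) (α s))
      have h10 : L * dist (α' t) (α t) ≤ L * e := mul_le_mul_of_nonneg_left h6 hL
      have h11 : L * dist (α' s) (α s) ≤ L * e := mul_le_mul_of_nonneg_left h7 hL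
      have h12 : κ * dist (α s) (α t) ≤ κ * (dist (α' s) (α' t) + 2 * e) := by
        apply mul_le_mul_of_nonneg_left _ hκ
        have h13 := dist_triangle4 (α s) (α' s) (α' t) (α t)
        rw [dist_comm (α s) (α' s)] at h13
        linarith
      have h13 : (t - s) * ε' ≤ (t - s) * e := mul_le_mul_of_nonneg_left h2 (by linarith)
      nlinarith [h8.1, h8.2, h9.1, h9.2]
    refine le_of_forall_pos_le_add fun e he => ?_
    have hden : 0 < 2 * κ + 2 * L + (t - s) + 1 := by
      have : 0 ≤ t - s := by linarith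
      linarith
    have h1 := hkey (e / (2 * κ + 2 * L + (t - s) + 1)) (by positivity)
    have h2 : (2 * κ + 2 * L + (t - s)) * (e / (2 * κ + 2 * L + (t - s) + 1)) ≤ e := by
      rw [mul_div_assoc', div_le_iff₀ hden]
      nlinarith
    linarith
  · -- en2
    intro O σ hO hσ hslope s t hs hst hrO
    have hK : IsCompact (α '' Icc s t) := isCompact_Icc.image_of_continuousOn (hαc s t hs)
    have hKO : α '' Icc s t ⊆ O := by
      rintro _ ⟨r, hr, rfl⟩
      exact hrO r hr
    obtain ⟨δ, hδ, hδO⟩ := hK.exists_thickening_subset_open hO hKO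
    have hkey : ∀ e > 0, e < δ / 2 →
        σ * dist (α s) (α t) ≤ g (α t) - g (α s) + (2 * σ + 2 * L + (L + 1) * (t - s)) * e ∧
        σ ^ 2 * (t - s) ≤ g (α t) - g (α s) + (2 * L + (2 * σ + 1) * (t - s)) * e := by
      intro e he heδ
      obtain ⟨α', ε', h1, h2, h3, h4⟩ := hα (t + 1) (by linarith) e he
      have hcα' := aflow_cont h3 hs (by linarith : t ≤ t + 1)
      have hbase : ∀ r ∈ Ico s t, ∀ r' z a, Seg g L ε' α' r r' z a → σ ≤ a + ε' := by
        intro r hr r' z a hseg
        apply hseg.sl σ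
        apply hslope
        apply hδO
        rw [Metric.mem_thickening_iff]
        refine ⟨α r, ⟨r, ⟨hr.1, hr.2.le⟩, rfl⟩, ?_⟩
        have h5 := hseg.near
        have h6 := h4 r ⟨hs.trans hr.1, by linarith [hr.2]⟩
        have h7 := dist_triangle z (α' r) (α r)
        linarith
      have h6 := h4 t ⟨by linarith, by linarith⟩
      have h7 := h4 s ⟨by linarith, by linarith⟩
      have h8 := abs_le.1 (hLip (α' t) (α t))
      have h9 := abs_le.1 (hLip (α' s) (α s))
      have h10 : L * dist (α' t) (α t) ≤ L * e := mul_le_mul_of_nonneg_left h6 hL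
      have h11 : L * dist (α' s) (α s) ≤ L * e := mul_le_mul_of_nonneg_left h7 hL
      have hts : 0 ≤ t - s := by linarith
      constructor
      · have hφ : ContinuousOn (fun r => σ * dist (α' s) (α' r) - g (α' r)) (Icc s t) :=
          (continuousOn_const.mul (cont_distr hcα' (α' s))).sub
            (hgc.comp_continuousOn hcα')
        have h5 := piece_int hRI h3 hs hst (by linarith) (ψ := fun _ => (L + 1) * ε') hφ
          continuousOn_const (by
          intro r hr r' z a hseg s' t' h5 h6 h7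
          have hb := hbase r hr r' z a hseg
          have h8 := hseg.en s' t' h5 h6 h7
          have h9 := hseg.speed s' ⟨h5, h6.trans h7⟩ t' ⟨h5.trans h6, h7⟩
          rw [abs_sub_comm, abs_of_nonneg (by linarith)] at h9
          have h10 := dist_triangle (α' s) (α' s') (α' t')
          have h11 : σ * dist (α' s) (α' t') ≤ σ * (dist (α' s) (α' s') + a * (t' - s')) := by
            apply mul_le_mul_of_nonneg_left _ hσ
            rw [← h9]; exact h10
          have ha0 := hseg.nonneg
          have haL := hseg.le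
          have h12 : a * (σ - a) ≤ L * ε' := by
            have h13 : a * (σ - a) ≤ a * ε' := mul_le_mul_of_nonneg_left (by linarith) ha0
            have h14 : a * ε' ≤ L * ε' := mul_le_mul_of_nonneg_right haL h1.le
            linarith
          have h15 := mul_le_mul_of_nonneg_left h12 (by linarith : 0 ≤ t' - s')
          beta_reduce
          nlinarith)
        rw [intervalIntegral.integral_const, smul_eq_mul] at h5
        beta_reduce at h5
        rw [dist_self, mul_zero, zero_sub] at h5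
        have h12 : σ * dist (α s) (α t) ≤ σ * (dist (α' s) (α' t) + 2 * e) := by
          apply mul_le_mul_of_nonneg_left _ hσ
          have h13 := dist_triangle4 (α s) (α' s) (α' t) (α t)
          rw [dist_comm (α s) (α' s)] at h13
          linarith
        have h13 : (t - s) * ((L + 1) * ε') ≤ (t - s) * ((L + 1) * e) := by
          apply mul_le_mul_of_nonneg_left _ hts
          exact mul_le_mul_of_nonneg_left h2 (by linarith)
        nlinarith [h8.1, h8.2, h9.1, h9.2]
      · have hφ : ContinuousOn (fun r => -g (α' r)) (Icc s t) :=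
          (hgc.comp_continuousOn hcα').neg
        have h5 := piece_int hRI h3 hs hst (by linarith)
          (ψ := fun _ => -(σ ^ 2 - 2 * σ * ε' - ε')) hφ continuousOn_const (by
          intro r hr r' z a hseg s' t' h5 h6 h7
          have hb := hbase r hr r' z a hseg
          have h8 := hseg.en s' t' h5 h6 h7
          have ha0 := hseg.nonneg
          have h12 : σ ^ 2 - 2 * σ * ε' ≤ a ^ 2 := by
            rcases le_total σ ε' with h | h
            · nlinarith
            · nlinarith
          have h15 := mul_le_mul_of_nonneg_left h12 (by linarith : 0 ≤ t' - s')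
          beta_reduce
          nlinarith)
        rw [intervalIntegral.integral_const, smul_eq_mul] at h5
        beta_reduce at h5
        have h13 : (t - s) * ((2 * σ + 1) * ε') ≤ (t - s) * ((2 * σ + 1) * e) := by
          apply mul_le_mul_of_nonneg_left _ hts
          exact mul_le_mul_of_nonneg_left h2 (by linarith)
        nlinarith [h8.1, h8.2, h9.1, h9.2]
    have hts : 0 ≤ t - s := by linarith
    set M := 2 * σ + 2 * L + (L + 1) * (t - s) + (2 * σ + 1) * (t - s) + 1 with hM
    have hLts : 0 ≤ (L + 1) * (t - s) := mul_nonneg (by linarith) hts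
    have hσts : 0 ≤ (2 * σ + 1) * (t - s) := mul_nonneg (by linarith) hts
    have hMpos : 0 < M := by linarith
    constructor
    · refine le_of_forall_pos_le_add fun e he => ?_
      have h0 : 0 < min (e / M) (δ / 3) := lt_min (by positivity) (by linarith)
      have h1 := (hkey (min (e / M) (δ / 3)) h0
        (lt_of_le_of_lt (min_le_right _ _) (by linarith))).1
      have h2 : (2 * σ + 2 * L + (L + 1) * (t - s)) * min (e / M) (δ / 3) ≤ e := by
        have h3 : (2 * σ + 2 * L + (L + 1) * (t - s)) * min (e / M) (δ / 3)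
          ≤ M * (e / M) := by
          apply mul_le_mul (by linarith) (min_le_left _ _) h0.le hMpos.le
        have h4 : M * (e / M) = e := by field_simp
        linarith
      linarith
    · refine le_of_forall_pos_le_add fun e he => ?_
      have h0 : 0 < min (e / M) (δ / 3) := lt_min (by positivity) (by linarith)
      have h1 := (hkey (min (e / M) (δ / 3)) h0
        (lt_of_le_of_lt (min_le_right _ _) (by linarith))).2
      have h2 : (2 * L + (2 * σ + 1) * (t - s)) * min (e / M) (δ / 3) ≤ e := by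
        have h3 : (2 * L + (2 * σ + 1) * (t - s)) * min (e / M) (δ / 3)
          ≤ M * (e / M) := by
          apply mul_le_mul (by linarith) (min_le_left _ _) h0.le hMpos.le
        have h4 : M * (e / M) = e := by field_simp
        linarith
      linarith

end Pool.Agent.H29.AL
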