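import Pool.Agent.H29.AL.ST

/-!
Module SG for MP_c9ef16_gt: one step of the approximate gradient flow.
-/

open Topology Set Filter Real

namespace Pool.Agent.H29.AL

open Pool.Agent.H96.AL

variable {X : Type} [MetricSpace X]

lemma convexOn_sinh : ConvexOn ℝ (Ici (0 : ℝ)) sinh := by
  refine MonotoneOn.convexOn_of_deriv (convex_Ici 0) continuous_sinh.continuousOn
    differentiable_sinh.differentiableOn ?_
  rw [interior_Ici, Real.deriv_sinh]
  intro a ha b hb hab
  rw [cosh_le_cosh, abs_of_pos ha, abs_of_pos hb]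
  exact hab

lemma sinh_slope {a b : ℝ} (ha : 0 < a) (hab : a ≤ b) : b * sinh a ≤ a * sinh b := by
  have hb : 0 < b := ha.trans_le hab
  have h0 : (0 : ℝ) ≤ 1 - a / b := sub_nonneg.2 ((div_le_one hb).2 hab)
  have h0' : (0 : ℝ) ≤ a / b := by positivity
  have h1 := convexOn_sinh.2 (mem_Ici.2 le_rfl) (mem_Ici.2 hb.le) h0 h0'
    (sub_add_cancel (1 : ℝ) (a / b))
  have e : (1 - a / b) • (0 : ℝ) + (a / b) • b = a := by
    simp only [smul_eq_mul]
    field_simp
    ring
  rw [e] at h1
  simp only [smul_eq_mul, sinh_zero, mul_zero, zero_add] at h1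
  have h2 := mul_le_mul_of_nonneg_left h1 hb.le
  have e2 : b * (a / b * sinh b) = a * sinh b := by field_simp
  rwa [e2] at h2

lemma tangent {l ρ : ℝ} (hl : 0 < l) (hρ : 0 ≤ ρ) :
    sinh l * (ρ ^ 2 / 2 - l ^ 2 / 2) ≤ l * (cosh ρ - cosh l) := by
  set f : ℝ → ℝ := fun x => l * (cosh x - cosh l) - sinh l * (x ^ 2 / 2 - l ^ 2 / 2) with hf
  have hd : ∀ x, HasDerivAt f (l * sinh x - sinh l * x) x := by
    intro x
    have h1 : HasDerivAt (fun x => l * (cosh x - cosh l)) (l * sinh x) x :=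
      ((hasDerivAt_cosh x).sub_const _).const_mul l
    have h2 : HasDerivAt (fun x : ℝ => x ^ 2 / 2) x x := by
      have := (hasDerivAt_pow 2 x).div_const 2
      simpa using this
    have h3 : HasDerivAt (fun x => sinh l * (x ^ 2 / 2 - l ^ 2 / 2)) (sinh l * x) x :=
      (h2.sub_const _).const_mul (sinh l)
    exact h1.sub h3
  have hfd : Differentiable ℝ f := fun x => (hd x).differentiableAt
  have hfl : f l = 0 := by simp [hf]
  have hgoal : 0 ≤ f ρ := by
    rcases le_total ρ l with h | h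
    · have h1 : AntitoneOn f (Icc 0 l) := by
        refine antitoneOn_of_deriv_nonpos (convex_Icc 0 l) hfd.continuous.continuousOn
          hfd.differentiableOn ?_
        intro x hx
        rw [interior_Icc] at hx
        rw [(hd x).deriv]
        have := sinh_slope hx.1 hx.2.le
        linarith
      have h2 := h1 (⟨hρ, h⟩ : ρ ∈ Icc 0 l) (⟨hl.le, le_rfl⟩ : l ∈ Icc 0 l) h
      rwa [hfl] at h2
    · have h1 : MonotoneOn f (Ici l) := by
        refine monotoneOn_of_deriv_nonneg (convex_Ici l) hfd.continuous.continuousOn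
          hfd.differentiableOn ?_
        intro x hx
        rw [interior_Ici] at hx
        rw [(hd x).deriv]
        have := sinh_slope hl (le_of_lt hx)
        linarith
      have h2 := h1 (self_mem_Ici : l ∈ Ici l) (mem_Ici.2 h) h
      rwa [hfl] at h2
  simp only [hf] at hgoal
  linarith

lemma mul_cosh_le {l : ℝ} (hl : 0 ≤ l) : l * cosh l ≤ (1 + l) * sinh l := by
  have h1 : cosh l - sinh l = exp (-l) := Real.cosh_sub_sinh l
  have h2 : l ≤ sinh l := self_le_sinh_iff.2 hl
  have h3 : exp (-l) ≤ 1 := exp_le_one_iff.2 (by linarith)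
  have h4 : l * exp (-l) ≤ l * 1 := mul_le_mul_of_nonneg_left h3 hl
  nlinarith

lemma dge_self {g : X → ℝ} {z : X} {θ : ℝ} (h : DGe g z z θ) : θ ≤ 0 := by
  have hη : IsGeod (fun _ : ℝ => z) z z := by
    refine ⟨rfl, rfl, fun s hs t ht => ?_⟩
    rw [dist_self] at hs ht
    have h1 : s = 0 := le_antisymm hs.2 hs.1
    have h2 : t = 0 := le_antisymm ht.2 ht.1
    rw [h1, h2]
    simp
  refine le_of_forall_pos_le_add fun e he => ?_
  have h1 := h _ hη e he
  have h2 : ∀ᶠ s in 𝓝[>] (0 : ℝ), 0 < s := self_mem_nhdsWithin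
  obtain ⟨s, h3, h4⟩ := (h1.and h2).exists
  by_contra hcon
  push Not at hcon
  have : 0 < s * (θ - e) := mul_pos h4 (by linarith)
  linarith

/-- growth of half the squared distance along an almost maximal direction -/
lemma phi0 (hST : T_ST) (hEL : T_EL) {D : ℝ} (hSp : Sp X D) {g : X → ℝ} {L Λ : ℝ}
    (hL : 0 ≤ L) (hΛ : 0 ≤ Λ) (hLip : Lip L g) (hSC : SC Λ g) {z : X} {A : ℝ} (hA : 0 < A)
    (hsup : ∀ w : X, w ≠ z → (g w - g z) / dist z w - Λ / 2 * dist z w ≤ A)
    {e1 ε : ℝ} (he1 : 0 < e1) (he1' : e1 ≤ 1) (hDe : D * (2 + L) * e1 ≤ ε / 8) {w : X}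
    (hwz : w ≠ z) (hw : A - e1 ^ 2 ≤ (g w - g z) / dist z w - Λ / 2 * dist z w) {γ : ℝ → X}
    (hγ : IsGeod γ z w) {y : X} {θ : ℝ} (hθ : DGe g z y θ) {σ : ℝ} (hσ : 0 < σ) (hσ1 : σ ≤ 1)
    (hσw : σ ≤ dist z w) :
    dist (γ σ) y ^ 2 / 2 - dist z y ^ 2 / 2
      ≤ -((θ - ε / 8) / A) * σ + (1 + D) * cosh D * σ ^ 2 := by
  set P := (θ - ε / 8) / A with hP
  have hD1 := hSp.one_le
  have hcD : 1 ≤ cosh D := one_le_cosh D
  have hσI : σ ∈ Icc (0 : ℝ) (dist z w) := ⟨hσ.le, hσw⟩
  have hzσ : dist z (γ σ) = σ := geod_left hγ hσI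
  have hC : 1 / 2 ≤ (1 + D) * cosh D := by nlinarith
  have hεp : 0 < ε / 8 := by
    have : 0 < D * (2 + L) * e1 := by positivity
    linarith
  have hbig : dist (γ σ) y ≤ dist z y + σ := by
    have := dist_triangle (γ σ) z y
    rw [dist_comm (γ σ) z, hzσ] at this
    linarith
  have hbig2 : dist (γ σ) y ^ 2 / 2 - dist z y ^ 2 / 2 ≤ dist z y * σ + σ ^ 2 / 2 := by
    have h1 : dist (γ σ) y ^ 2 ≤ (dist z y + σ) ^ 2 := pow_le_pow_left₀ dist_nonneg hbig 2
    nlinarith
  have hCσ : σ ^ 2 / 2 ≤ (1 + D) * cosh D * σ ^ 2 := by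
    have := mul_le_mul_of_nonneg_right hC (sq_nonneg σ)
    linarith
  rcases eq_or_ne y z with hyz | hyz
  · have h1 : θ ≤ 0 := by rw [hyz] at hθ; exact dge_self hθ
    have h2 : P ≤ 0 := div_nonpos_of_nonpos_of_nonneg (by linarith) hA.le
    rw [hyz, dist_self] at hbig2
    rw [hyz, dist_self]
    have h3 : 0 ≤ -P * σ := mul_nonneg (by linarith) hσ.le
    linarith
  · have hl : 0 < dist z y := dist_pos.2 (Ne.symm hyz)
    have hlD : dist z y ≤ D := hSp.diam z y
    rcases lt_or_ge P (-dist z y) with h | h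
    · have h1 : dist z y * σ ≤ -P * σ := mul_le_mul_of_nonneg_right (by linarith) hσ.le
      linarith
    · obtain ⟨η, hη⟩ := hSp.geo z y
      have h1 := hST X D hSp g L Λ hL hΛ hLip hSC z A hA hsup e1 he1 he1' w hwz hw γ hγ y η θ
        hyz hη hθ σ ⟨hσ, hσw⟩ (dist z y) ⟨hl, le_rfl⟩
      rw [hη.2.1] at h1
      set l := dist z y with hldef
      set ρ := dist (γ σ) y with hρ
      have hsl : 0 < sinh l := sinh_pos_iff.2 hl
      have hsσ : 0 < sinh σ := sinh_pos_iff.2 hσ
      have h2 : P ≤ l * cc σ l ρ := by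
        rw [hP, div_le_iff₀ hA]
        nlinarith
      have h3 : P * sinh σ * sinh l ≤ l * (cosh σ * cosh l - cosh ρ) := by
        have h4 := mul_le_mul_of_nonneg_right h2 (mul_pos hsσ hsl).le
        have e : l * cc σ l ρ * (sinh σ * sinh l) = l * (cosh σ * cosh l - cosh ρ) := by
          unfold cc
          field_simp
        rw [e] at h4
        linarith
      have h5 := tangent hl (dist_nonneg : 0 ≤ ρ)
      have h6 := mul_cosh_le hl.le
      obtain ⟨-, -, -, hE1, -⟩ := hEL D σ hσ.le (by linarith)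
      obtain ⟨hE2, hE3, -, -, -⟩ := hEL σ σ hσ.le le_rfl
      have hc1 : 0 ≤ cosh σ - 1 := by linarith [one_le_cosh σ]
      -- divide by `sinh l`
      have h7 : sinh l * (ρ ^ 2 / 2 - l ^ 2 / 2)
          ≤ sinh l * ((1 + l) * (cosh σ - 1) - P * sinh σ) := by
        have h8 := mul_le_mul_of_nonneg_right h6 hc1
        nlinarith
      have h9 := le_of_mul_le_mul_left h7 hsl
      have h10 : (1 + l) * (cosh σ - 1) ≤ (1 + D) * (σ ^ 2 / 2 * cosh D) :=
        mul_le_mul (by linarith) hE1 hc1 (by linarith)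
      have h11 : -P * sinh σ ≤ -P * σ + D * (σ ^ 2 / 2 * cosh D) := by
        rcases le_total 0 P with h12 | h12
        · have h13 : -P * sinh σ ≤ -P * σ := by nlinarith
          have : 0 ≤ D * (σ ^ 2 / 2 * cosh D) := by positivity
          linarith
        · have h13 : sinh σ - σ ≤ σ ^ 2 / 2 * cosh D := by
            have h14 : sinh σ - σ ≤ σ * (cosh σ - 1) := by nlinarith
            have h15 : σ * (cosh σ - 1) ≤ 1 * (cosh σ - 1) :=
              mul_le_mul_of_nonneg_right hσ1 hc1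
            linarith
          have h16 : 0 ≤ sinh σ - σ := by linarith
          have h17 : -P * (sinh σ - σ) ≤ D * (σ ^ 2 / 2 * cosh D) :=
            mul_le_mul (by linarith) h13 h16 (by linarith)
          linarith
      have h18 : (1 + D) * (σ ^ 2 / 2 * cosh D) + D * (σ ^ 2 / 2 * cosh D)
          ≤ (1 + D) * cosh D * σ ^ 2 := by
        have : 0 ≤ σ ^ 2 / 2 * cosh D := by positivity
        nlinarith
      linarith

/-- increments of half the squared distance along an almost maximal direction -/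
lemma phi1 (hSD : T_SD) {D : ℝ} (hSp : Sp X D) {z w y : X} {γ : ℝ → X} (hγ : IsGeod γ z w)
    {P C s1 s2 : ℝ} (hC : 0 ≤ C) (hs1 : 0 ≤ s1) (hs12 : s1 ≤ s2) (hs2 : s2 ≤ dist z w)
    (h0 : ∀ σ : ℝ, 0 < σ → σ ≤ s2 →
      dist (γ σ) y ^ 2 / 2 - dist z y ^ 2 / 2 ≤ -P * σ + C * σ ^ 2) :
    dist (γ s2) y ^ 2 / 2 - dist (γ s1) y ^ 2 / 2
      ≤ (s2 - s1) * (-P + (C + cosh D) * s2) := by
  have hcD : 1 ≤ cosh D := one_le_cosh D
  rcases eq_or_lt_of_le hs12 with h | h
  · rw [h]; simp
  have hs2p : 0 < s2 := hs1.trans_lt h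
  rcases eq_or_lt_of_le hs1 with h1 | h1
  · rw [← h1, hγ.1]
    have h2 := h0 s2 hs2p le_rfl
    have h3 : 0 ≤ s2 * (cosh D * s2) := by positivity
    nlinarith
  · have hI1 : s1 ∈ Icc (0 : ℝ) (dist z w) := ⟨hs1, hs12.trans hs2⟩
    have hI2 : s2 ∈ Icc (0 : ℝ) (dist z w) := ⟨hs2p.le, hs2⟩
    have hz1 : dist z (γ s1) = s1 := geod_left hγ hI1
    have hz2 : dist z (γ s2) = s2 := geod_left hγ hI2
    have h12 : dist (γ s1) (γ s2) = s2 - s1 := geod_dist hγ hI1 hI2 hs12
    have h2 := (hSD X D hSp y).1 z (γ s2) (γ s1) (s1 / s2)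
      ⟨by positivity, (div_le_one hs2p).2 hs12⟩ (by rw [hz1, hz2]; field_simp)
      (by rw [h12, hz2]; field_simp)
    beta_reduce at h2
    rw [hz2, dist_comm y z, dist_comm y (γ s2), dist_comm y (γ s1)] at h2
    have h3 := h0 s1 h1 hs12
    set φ0 := dist z y ^ 2 / 2
    set φ1 := dist (γ s1) y ^ 2 / 2
    set φ2 := dist (γ s2) y ^ 2 / 2
    -- multiply by `s2`
    have h4 : (s2 - s1) * φ0 + s1 * φ2 - cosh D / 2 * s1 * (s2 - s1) * s2 ≤ s2 * φ1 := by
      have h5 := mul_le_mul_of_nonneg_left h2 hs2p.le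
      have e : s2 * ((1 - s1 / s2) * φ0 + s1 / s2 * φ2
          - cosh D / 2 * (s1 / s2) * (1 - s1 / s2) * s2 ^ 2)
        = (s2 - s1) * φ0 + s1 * φ2 - cosh D / 2 * s1 * (s2 - s1) * s2 := by
        field_simp
      linarith
    have h6 : s1 * (φ2 - φ1) ≤ s1 * ((s2 - s1) * (-P + (C + cosh D) * s2)) := by
      have h7 : s1 * (φ2 - φ1) ≤ (s2 - s1) * (φ1 - φ0) + cosh D / 2 * s1 * (s2 - s1) * s2 := by
        nlinarith
      have h8 : (s2 - s1) * (φ1 - φ0) ≤ (s2 - s1) * (-P * s1 + C * s1 ^ 2) :=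
        mul_le_mul_of_nonneg_left h3 (by linarith)
      have h9 : (s2 - s1) * (C * s1 ^ 2) ≤ (s2 - s1) * (C * (s1 * s2)) := by
        apply mul_le_mul_of_nonneg_left _ (by linarith)
        apply mul_le_mul_of_nonneg_left _ hC
        nlinarith
      have h10 : 0 ≤ cosh D / 2 * s1 * (s2 - s1) * s2 := by
        have : 0 ≤ s2 - s1 := by linarith
        positivity
      nlinarith
    exact le_of_mul_le_mul_left h6 h1

/-- increments of `g` along an almost maximal direction -/
lemma gincr {g : X → ℝ} {Λ : ℝ} (hΛ : 0 ≤ Λ) (hSC : SC Λ g) {z w : X} {A : ℝ}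
    (hsup : ∀ w : X, w ≠ z → (g w - g z) / dist z w - Λ / 2 * dist z w ≤ A) {e : ℝ}
    (he : 0 ≤ e) (hwz : w ≠ z) (hw : A - e ≤ (g w - g z) / dist z w - Λ / 2 * dist z w)
    {γ : ℝ → X} (hγ : IsGeod γ z w) {s1 s2 : ℝ} (hs1 : 0 ≤ s1) (hs12 : s1 ≤ s2)
    (hs2 : s2 ≤ dist z w / 2) :
    (s2 - s1) * (A - 2 * e) ≤ g (γ s2) - g (γ s1) := by
  have hS : 0 < dist z w := dist_pos.2 (Ne.symm hwz)
  set S := dist z w with hSdef
  have hI1 : s1 ∈ Icc (0 : ℝ) (dist z w) := ⟨hs1, by linarith⟩
  have hI2 : s2 ∈ Icc (0 : ℝ) (dist z w) := ⟨by linarith, by linarith⟩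
  have h1w : dist (γ s1) w = S - s1 := geod_right hγ hI1
  have h2w : dist (γ s2) w = S - s2 := geod_right hγ hI2
  have h12 : dist (γ s1) (γ s2) = s2 - s1 := geod_dist hγ hI1 hI2 hs12
  have hS1 : 0 < S - s1 := by linarith
  have hS2 : 0 < S - s2 := by linarith
  have h1 := hSC (γ s1) w (γ s2) ((s2 - s1) / (S - s1))
    ⟨div_nonneg (by linarith) hS1.le, (div_le_one hS1).2 (by linarith)⟩
    (by rw [h12, h1w]; field_simp) (by rw [h2w, h1w]; field_simp; ring)
  rw [h1w] at h1
  -- multiply by `S - s1`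
  have h2 : (S - s2) * g (γ s1) + (s2 - s1) * g w
      - Λ / 2 * (s2 - s1) * (S - s2) * (S - s1) ≤ (S - s1) * g (γ s2) := by
    have h5 := mul_le_mul_of_nonneg_left h1 hS1.le
    have e1 : (S - s1) * ((1 - (s2 - s1) / (S - s1)) * g (γ s1)
        + (s2 - s1) / (S - s1) * g w
        - Λ / 2 * ((s2 - s1) / (S - s1)) * (1 - (s2 - s1) / (S - s1)) * (S - s1) ^ 2)
      = (S - s2) * g (γ s1) + (s2 - s1) * g w
      - Λ / 2 * (s2 - s1) * (S - s2) * (S - s1) := by
      field_simp
      ring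
    linarith
  have h3 : (A - e) * S + Λ / 2 * S ^ 2 ≤ g w - g z := by
    have h4 := grow hSC hwz hw hγ (s := S) ⟨hS.le, le_rfl⟩
    rwa [hγ.2.1] at h4
  have h4 : g (γ s2) - g z ≤ A * s2 + Λ / 2 * s2 ^ 2 := by
    have hz2 : dist z (γ s2) = s2 := geod_left hγ hI2
    rcases eq_or_ne (γ s2) z with h5 | h5
    · have h6 : s2 = 0 := by rw [← hz2, h5, dist_self]
      rw [h5, h6]; simp
    · have h6 := hsup (γ s2) h5
      rw [hz2] at h6
      have h7 : 0 < s2 := by rw [← hz2]; exact dist_pos.2 (Ne.symm h5)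
      have h8 := mul_le_mul_of_nonneg_right h6 h7.le
      have e2 : ((g (γ s2) - g z) / s2 - Λ / 2 * s2) * s2
        = g (γ s2) - g z - Λ / 2 * s2 ^ 2 := by
        field_simp
      rw [e2] at h8
      linarith
  -- combine
  have h5 : (S - s2) * ((s2 - s1) * (A - 2 * e)) ≤ (S - s2) * (g (γ s2) - g (γ s1)) := by
    have h6 : (s2 - s1) * (g w - g (γ s2)) - Λ / 2 * (s2 - s1) * (S - s2) * (S - s1)
        ≤ (S - s2) * (g (γ s2) - g (γ s1)) := by nlinarith
    have h7 : A * (S - s2) - e * S + Λ / 2 * (S ^ 2 - s2 ^ 2) ≤ g w - g (γ s2) := by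
      linarith
    have h8 := mul_le_mul_of_nonneg_left h7 (by linarith : (0 : ℝ) ≤ s2 - s1)
    have h9 : e * S ≤ 2 * e * (S - s2) := by nlinarith
    have h10 := mul_le_mul_of_nonneg_left h9 (by linarith : (0 : ℝ) ≤ s2 - s1)
    have h11 : 0 ≤ Λ / 2 * (s2 - s1) * (S - s2) * (s1 + s2) := by
      have a1 : 0 ≤ s2 - s1 := by linarith
      have a2 : 0 ≤ s1 + s2 := by linarith
      positivity
    nlinarith
  exact le_of_mul_le_mul_left h5 hS2

theorem sg (hST : T_ST) (hSD : T_SD) (hEL : T_EL) : T_SG := by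
  intro X _ D hSp g L Λ hL hΛ hLip hSC z ε hε
  have hD1 := hSp.one_le
  set q : X → ℝ := fun w => (g w - g z) / dist z w - Λ / 2 * dist z w with hq
  have hqL : ∀ w, w ≠ z → q w ≤ L := by
    intro w hw
    have hS : 0 < dist z w := dist_pos.2 (Ne.symm hw)
    have h1 : (g w - g z) / dist z w ≤ L := by
      rw [div_le_iff₀ hS]
      have := hLip w z
      rw [dist_comm w z] at this
      exact (le_abs_self _).trans this
    have h2 : 0 ≤ Λ / 2 * dist z w := by positivity
    simp only [hq]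
    linarith
  -- the ascending slope is at most any bound of `q`
  have hslope : ∀ A : ℝ, (∀ w, w ≠ z → q w ≤ A) → ∀ σ : ℝ, SlopeGe g z σ → σ ≤ A := by
    intro A hA σ hσ
    refine le_of_forall_pos_le_add fun e he => ?_
    obtain ⟨w, hwz, hwr, hw⟩ := hσ (e / 2) (by linarith) (e / (Λ + 1)) (by positivity)
    have hS : 0 < dist z w := dist_pos.2 (Ne.symm hwz)
    have h1 : σ - e / 2 ≤ (g w - g z) / dist z w := by
      rw [le_div_iff₀ hS]; exact hw
    have h2 := hA w hwz
    simp only [hq] at h2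
    have h3 : Λ / 2 * dist z w ≤ e / 2 := by
      have h4 : Λ * dist z w ≤ Λ * (e / (Λ + 1)) := mul_le_mul_of_nonneg_left hwr.le hΛ
      have h5 : Λ * (e / (Λ + 1)) ≤ e := by
        rw [mul_div_assoc', div_le_iff₀ (by linarith)]
        nlinarith
      linarith
    linarith
  by_cases hcase : ∀ w, w ≠ z → q w ≤ ε / (2 * D)
  · -- nothing to do
    refine ⟨0, ε, fun _ => z, le_rfl, hL, hε, le_rfl, rfl, ?_, ?_, ?_, ?_⟩
    · intro s _ t _; simp
    · intro y θ hθ s t hs hst ht
      have h1 : θ ≤ ε := by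
        rcases eq_or_ne y z with h | h
        · rw [h] at hθ; linarith [dge_self hθ]
        · obtain ⟨η, hη⟩ := hSp.geo z y
          have hl : 0 < dist z y := dist_pos.2 (Ne.symm h)
          have hlD : dist z y ≤ D := hSp.diam z y
          set l := dist z y with hldef
          have h2 : ∀ e > 0, θ - e ≤ ε / 2 := by
            intro e he
            have h3 := hθ η hη e he
            have h4 : ∀ᶠ s in 𝓝[>] (0 : ℝ), θ - e ≤ ε / 2 + Λ / 2 * l ^ 2 * s := by
              have h5 : ∀ᶠ s in 𝓝[>] (0 : ℝ), 0 < s ∧ s < 1 := by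
                have h1 : Ioo (0 : ℝ) 1 ∈ 𝓝[>] (0 : ℝ) := Ioo_mem_nhdsGT one_pos
                exact h1
              filter_upwards [h3, h5] with s h6 h7
              have h8 : s * l ∈ Icc (0 : ℝ) (dist z y) :=
                ⟨mul_nonneg h7.1.le hl.le, by nlinarith [h7.2]⟩
              have h9 : dist z (η (s * l)) = s * l := geod_left hη h8
              have h10 : 0 < s * l := mul_pos h7.1 hl
              have h11 : η (s * l) ≠ z := by
                intro hcon
                rw [hcon, dist_self] at h9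
                linarith
              have h12 := hcase _ h11
              simp only [hq] at h12
              rw [h9] at h12
              have h13 : (s * (θ - e)) / (s * l) ≤ (g (η (s * l)) - g z) / (s * l) :=
                div_le_div_of_nonneg_right (by linarith) h10.le
              have h14 : (s * (θ - e)) / (s * l) = (θ - e) / l :=
                mul_div_mul_left _ _ h7.1.ne'
              rw [h14] at h13
              have h15 : (θ - e) / l ≤ ε / (2 * D) + Λ / 2 * (s * l) := by linarith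
              rw [div_le_iff₀ hl] at h15
              have h16 : ε / (2 * D) * l ≤ ε / 2 := by
                have h17 : ε / (2 * D) * l ≤ ε / (2 * D) * D :=
                  mul_le_mul_of_nonneg_left hlD (by positivity)
                have h18 : ε / (2 * D) * D = ε / 2 := by field_simp
                linarith
              nlinarith
            have hid : Tendsto (fun s : ℝ => s) (𝓝[>] 0) (𝓝 0) := nhdsWithin_le_nhds
            have h5 : Tendsto (fun s : ℝ => ε / 2 + Λ / 2 * l ^ 2 * s) (𝓝[>] 0)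
                (𝓝 (ε / 2 + Λ / 2 * l ^ 2 * 0)) := (hid.const_mul _).const_add _
            have h6 := ge_of_tendsto h5 h4
            simpa using h6
          have h3 := h2 (ε / 2) (by linarith)
          linarith
      have h2 : 0 ≤ (t - s) * (-θ + ε) := mul_nonneg (by linarith) (by linarith)
      simpa using h2
    · intro s t hs hst ht
      have : 0 ≤ ε * (t - s) := mul_nonneg hε.le (by linarith)
      simp only [sub_self]
      nlinarith
    · intro σ hσ
      have h1 := hslope _ hcase σ hσ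
      have h2 : ε / (2 * D) ≤ ε := by
        rw [div_le_iff₀ (by linarith)]
        nlinarith
      linarith
  · push Not at hcase
    obtain ⟨w0, hw0z, hw0⟩ := hcase
    set Q : Set ℝ := q '' {w | w ≠ z} with hQ
    have hQne : Q.Nonempty := ⟨q w0, w0, hw0z, rfl⟩
    have hQb : BddAbove Q := ⟨L, by rintro _ ⟨w, hw, rfl⟩; exact hqL w hw⟩
    set A := sSup Q with hAdef
    have hAsup : ∀ w, w ≠ z → q w ≤ A := fun w hw => le_csSup hQb ⟨w, hw, rfl⟩
    have hApos : 0 < A := by
      have h1 := hAsup w0 hw0z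
      have h2 : 0 < ε / (2 * D) := by positivity
      linarith
    have hAL : A ≤ L := csSup_le hQne (by rintro _ ⟨w, hw, rfl⟩; exact hqL w hw)
    set e1 := min 1 (ε / (8 * D * (2 + L))) with he1def
    have he1 : 0 < e1 := lt_min one_pos (by positivity)
    have he1' : e1 ≤ 1 := min_le_left _ _
    have hDe : D * (2 + L) * e1 ≤ ε / 8 := by
      have h1 : e1 ≤ ε / (8 * D * (2 + L)) := min_le_right _ _
      have h2 := mul_le_mul_of_nonneg_left h1 (by positivity : 0 ≤ D * (2 + L))
      have h3 : D * (2 + L) * (ε / (8 * D * (2 + L))) = ε / 8 := by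
        field_simp
      linarith
    have hAe : 2 * e1 ^ 2 * A ≤ ε := by
      have h1 : e1 ^ 2 ≤ e1 := by nlinarith
      have h2 : A * e1 ^ 2 ≤ (D * (2 + L)) * e1 := by
        apply mul_le_mul _ h1 (sq_nonneg _) (by positivity)
        nlinarith
      nlinarith
    obtain ⟨_, ⟨w, hwz, rfl⟩, hw⟩ := exists_lt_of_lt_csSup hQne
      (show A - e1 ^ 2 < sSup Q by
        have : 0 < e1 ^ 2 := by positivity
        linarith)
    have hwz : w ≠ z := hwz
    obtain ⟨γ, hγ⟩ := hSp.geo z w
    have hS : 0 < dist z w := dist_pos.2 (Ne.symm hwz)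
    have hcD : 1 ≤ cosh D := one_le_cosh D
    set C := (1 + D) * cosh D with hCdef
    have hCpos : 0 < C := by positivity
    have hM : 0 < 2 * A ^ 2 * (C + cosh D) := by positivity
    set Δ := min (min ε (dist z w / (2 * A))) (min (1 / A) (ε / (2 * A ^ 2 * (C + cosh D))))
      with hΔdef
    have hΔpos : 0 < Δ := by
      refine lt_min (lt_min hε ?_) (lt_min ?_ ?_)
      · positivity
      · positivity
      · exact div_pos hε hM
    have hΔε : Δ ≤ ε := (min_le_left _ _).trans (min_le_left _ _)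
    have hΔ1 : A * Δ ≤ dist z w / 2 := by
      have h1 : Δ ≤ dist z w / (2 * A) := (min_le_left _ _).trans (min_le_right _ _)
      rw [le_div_iff₀ (by positivity)] at h1
      linarith
    have hΔ2 : A * Δ ≤ 1 := by
      have h1 : Δ ≤ 1 / A := (min_le_right _ _).trans (min_le_left _ _)
      rw [le_div_iff₀ hApos] at h1
      linarith
    have hΔ3 : A ^ 2 * (C + cosh D) * Δ ≤ ε / 2 := by
      have h1 : Δ ≤ ε / (2 * A ^ 2 * (C + cosh D)) := (min_le_right _ _).trans (min_le_right _ _)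
      rw [le_div_iff₀ hM] at h1
      linarith
    have hmono : ∀ s t : ℝ, s ≤ t → A * s ≤ A * t := fun s t h =>
      mul_le_mul_of_nonneg_left h hApos.le
    refine ⟨A, Δ, fun s => γ (A * s), hApos.le, hAL, hΔpos, hΔε, ?_, ?_, ?_, ?_, ?_⟩
    · simp only [mul_zero]; exact hγ.1
    · intro s hs t ht
      have h1 : A * s ∈ Icc (0 : ℝ) (dist z w) :=
        ⟨mul_nonneg hApos.le hs.1, by linarith [hmono s Δ hs.2]⟩
      have h2 : A * t ∈ Icc (0 : ℝ) (dist z w) :=
        ⟨mul_nonneg hApos.le ht.1, by linarith [hmono t Δ ht.2]⟩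
      rw [hγ.2.2 _ h1 _ h2, ← mul_sub, abs_mul, abs_of_pos hApos]
    · intro y θ hθ s t hs hst ht
      have hAt := hmono t Δ ht
      have h1 := phi1 hSD hSp (y := y) hγ (P := (θ - ε / 8) / A) (C := C) hCpos.le
        (mul_nonneg hApos.le hs) (hmono s t hst) (by linarith)
        (by
          intro σ hσ hσt
          exact phi0 hST hEL hSp hL hΛ hLip hSC hApos hAsup he1 he1' hDe hwz hw.le hγ hθ hσ
            (by linarith) (by linarith))
      refine h1.trans ?_
      have e : (A * t - A * s) * (-((θ - ε / 8) / A) + (C + cosh D) * (A * t))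
        = (t - s) * (-(θ - ε / 8) + A ^ 2 * (C + cosh D) * t) := by
        field_simp
      rw [e]
      apply mul_le_mul_of_nonneg_left _ (by linarith)
      have h2 : A ^ 2 * (C + cosh D) * t ≤ A ^ 2 * (C + cosh D) * Δ :=
        mul_le_mul_of_nonneg_left ht (by positivity)
      linarith
    · intro s t hs hst ht
      have hAt := hmono t Δ ht
      have h1 := gincr hΛ hSC hAsup (sq_nonneg e1) hwz hw.le hγ (mul_nonneg hApos.le hs)
        (hmono s t hst) (by linarith)
      refine le_trans ?_ h1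
      have h2 : 0 ≤ t - s := by linarith
      have h3 : (A ^ 2 - ε) * (t - s) ≤ (A ^ 2 - 2 * e1 ^ 2 * A) * (t - s) :=
        mul_le_mul_of_nonneg_right (by linarith) h2
      nlinarith
    · intro σ hσ
      linarith [hslope A hAsup σ hσ]

end Pool.Agent.H29.AL
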