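import Pool.Agent.H96.AL.Targets1

/-!
Module ST for MP_c9ef16_gt: the key inequality for an almost maximal direction.
-/

open Topology Set Filter Real

namespace Pool.Agent.H29.AL

open Pool.Agent.H96.AL

variable {X : Type} [MetricSpace X]

lemma cosh_half (x : ℝ) : cosh x = 1 + 2 * sinh (x / 2) ^ 2 := by
  have h1 := cosh_two_mul (x / 2)
  have h2 := cosh_sq (x / 2)
  rw [show 2 * (x / 2) = x by ring] at h1
  rw [h1, h2]; ring

lemma half_sq_le_cosh (x : ℝ) : x ^ 2 / 2 ≤ cosh x - 1 := by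
  have h1 := cosh_half x
  have h3 : (x / 2) ^ 2 ≤ sinh (x / 2) ^ 2 := by
    rw [sq_le_sq]
    rcases le_total 0 x with h | h
    · rw [abs_of_nonneg (by linarith), abs_of_nonneg (sinh_nonneg_iff.2 (by linarith))]
      exact self_le_sinh_iff.2 (by linarith)
    · rw [abs_of_nonpos (by linarith), abs_of_nonpos (sinh_nonpos_iff.2 (by linarith))]
      exact neg_le_neg (sinh_le_self_iff.2 (by linarith))
  nlinarith

lemma tendsto_sinh_div (c : ℝ) :
    Tendsto (fun s : ℝ => sinh (c * s) / s) (𝓝[>] 0) (𝓝 c) := by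
  have h : HasDerivAt (fun s : ℝ => sinh (c * s)) c 0 := by
    have h1 : HasDerivAt (fun s : ℝ => c * s) (c * 1) 0 := (hasDerivAt_id 0).const_mul c
    have h2 := h1.sinh
    simpa using h2
  have h3 := h.tendsto_slope_zero_right
  refine h3.congr fun s => ?_
  simp [smul_eq_mul]
  ring

lemma rhs_lim {F : Filter ℝ} {p q p1 q1 R x : ℝ → ℝ} {a b c d r A K : ℝ}
    (hp : Tendsto p F (𝓝 a)) (hq : Tendsto q F (𝓝 b)) (hp1 : Tendsto p1 F (𝓝 c))
    (hq1 : Tendsto q1 F (𝓝 d)) (hR : Tendsto R F (𝓝 r)) (hx : Tendsto x F (𝓝 0)) :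
    Tendsto (fun s => A * ((2 * p s ^ 2 + 2 * q s ^ 2 + 4 * p s ^ 2 * q s ^ 2 * x s ^ 2)
      + p1 s * q1 s * R s + 1 / 2) + K * x s) F
      (𝓝 (A * ((2 * a ^ 2 + 2 * b ^ 2 + 4 * a ^ 2 * b ^ 2 * 0 ^ 2) + c * d * r + 1 / 2)
        + K * 0)) := by
  refine Tendsto.add ?_ (hx.const_mul _)
  refine Tendsto.const_mul _ ?_
  refine Tendsto.add (Tendsto.add (Tendsto.add (Tendsto.add ?_ ?_) ?_) ?_) tendsto_const_nhds
  · exact (hp.pow 2).const_mul _
  · exact (hq.pow 2).const_mul _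
  · exact (((hp.pow 2).const_mul _).mul (hq.pow 2)).mul (hx.pow 2)
  · exact (hp1.mul hq1).mul hR

lemma cc_lim0 (hCC : T_CC) {a b c : ℝ} (ha : 0 < a) (hb : 0 < b) :
    ContinuousAt (fun p : ℝ × ℝ × ℝ => cc p.1 p.2.1 p.2.2) (a, b, c) := by
  obtain ⟨_, h, _⟩ := hCC
  exact h a b c ha hb

lemma cc_lim1 (hCC : T_CC) {a b c : ℝ} (ha : 0 < a) (hb : 0 < b) :
    Tendsto (fun p : ℝ × ℝ × ℝ => cc p.1 p.2.1 p.2.2) (𝓝 (a, b, c)) (𝓝 (cc a b c)) := by
  have := cc_lim0 hCC (c := c) ha hb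
  rw [ContinuousAt] at this
  exact this

lemma cc_lim (hCC : T_CC) {F : Filter ℝ} {u v : ℝ → ℝ} {a b c : ℝ} (ha : 0 < a) (hb : 0 < b)
    (hu : Tendsto u F (𝓝 a)) (hv : Tendsto v F (𝓝 b)) :
    Tendsto (fun s => cc (u s) (v s) c) F (𝓝 (cc a b c)) := by
  have h1 : Tendsto (fun s => (u s, v s, c)) F (𝓝 (a, b, c)) :=
    Tendsto.prodMk_nhds hu (hv.prodMk_nhds tendsto_const_nhds)
  have h2 := cc_lim1 hCC (c := c) ha hb
  have h3 := h2.comp h1
  simp only [Function.comp_def] at h3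
  exact h3

lemma geod_dist {γ : ℝ → X} {x y : X} (h : IsGeod γ x y) {s t : ℝ}
    (hs : s ∈ Icc 0 (dist x y)) (ht : t ∈ Icc 0 (dist x y)) (hst : s ≤ t) :
    dist (γ s) (γ t) = t - s := by
  rw [h.2.2 s hs t ht, abs_sub_comm, abs_of_nonneg (by linarith)]

lemma geod_left {γ : ℝ → X} {x y : X} (h : IsGeod γ x y) {s : ℝ}
    (hs : s ∈ Icc 0 (dist x y)) : dist x (γ s) = s := by
  have h1 := geod_dist h ⟨le_rfl, dist_nonneg⟩ hs hs.1
  rw [h.1] at h1
  linarith

lemma geod_right {γ : ℝ → X} {x y : X} (h : IsGeod γ x y) {s : ℝ}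
    (hs : s ∈ Icc 0 (dist x y)) : dist (γ s) y = dist x y - s := by
  have h1 := geod_dist h hs ⟨dist_nonneg, le_rfl⟩ hs.2
  rwa [h.2.1] at h1

lemma geod_btw {γ : ℝ → X} {x y : X} (h : IsGeod γ x y) {s t : ℝ}
    (hs : 0 ≤ s) (hst : s ≤ t) (ht : t ≤ dist x y) : Btw x (γ s) (γ t) := by
  have hs' : s ∈ Icc 0 (dist x y) := ⟨hs, hst.trans ht⟩
  have ht' : t ∈ Icc 0 (dist x y) := ⟨hs.trans hst, ht⟩
  unfold Pool.Agent.H96.AL.Btw
  rw [geod_left h hs', geod_left h ht', geod_dist h hs' ht' hst]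
  ring

lemma geod_btw_end {γ : ℝ → X} {x y : X} (h : IsGeod γ x y) {s : ℝ}
    (hs : s ∈ Icc 0 (dist x y)) : Btw x (γ s) y := by
  unfold Pool.Agent.H96.AL.Btw
  rw [geod_left h hs, geod_right h hs]
  ring

/-- The growth of a semiconcave function along an almost maximal direction. -/
lemma grow {g : X → ℝ} {Λ : ℝ} (hSC : SC Λ g) {z w : X} {B : ℝ} (hwz : w ≠ z)
    (hw : B ≤ (g w - g z) / dist z w - Λ / 2 * dist z w) {γ : ℝ → X} (hγ : IsGeod γ z w)
    {s : ℝ} (hs : s ∈ Icc (0 : ℝ) (dist z w)) :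
    B * s + Λ / 2 * s ^ 2 ≤ g (γ s) - g z := by
  have hS : 0 < dist z w := dist_pos.2 (Ne.symm hwz)
  have h1 := hSC z w (γ s) (s / dist z w) ⟨div_nonneg hs.1 hS.le, (div_le_one hS).2 hs.2⟩
    (by rw [geod_left hγ hs]; field_simp)
    (by rw [geod_right hγ hs]; field_simp)
  have h2 : B * dist z w ≤ g w - g z - Λ / 2 * dist z w ^ 2 := by
    have := mul_le_mul_of_nonneg_right hw hS.le
    have e : ((g w - g z) / dist z w - Λ / 2 * dist z w) * dist z w
      = g w - g z - Λ / 2 * dist z w ^ 2 := by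
      field_simp
    linarith
  set τ := s / dist z w with hτ
  have hτ0 : 0 ≤ τ := div_nonneg hs.1 hS.le
  have hsτ : s = τ * dist z w := by rw [hτ]; field_simp
  have h3 := mul_le_mul_of_nonneg_left h2 hτ0
  rw [hsτ] at h1 ⊢
  nlinarith

/-- The key inequality for fixed points on the two shortest paths. -/
theorem st_key (hHG : T_HG) (hCC : T_CC) {D : ℝ} (hSp : Sp X D) {g : X → ℝ} {Λ : ℝ}
    (hΛ : 0 ≤ Λ) (hSC : SC Λ g) {z : X} {A : ℝ} (hA : 0 < A)
    (hsup : ∀ w : X, w ≠ z → (g w - g z) / dist z w - Λ / 2 * dist z w ≤ A)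
    {ε : ℝ} (hε : 0 < ε) {w : X} (hwz : w ≠ z)
    (hw : A - ε ^ 2 ≤ (g w - g z) / dist z w - Λ / 2 * dist z w) {γ : ℝ → X}
    (hγ : IsGeod γ z w) {y : X} {η : ℝ → X} (hη : IsGeod η z y) {s1 t : ℝ}
    (hs1 : s1 ∈ Ioc (0 : ℝ) (dist z w)) (ht : t ∈ Ioc (0 : ℝ) (dist z y)) :
    (g (η t) - g z) / t - Λ / 2 * t - ε - A * ε / 2
      ≤ A * cc s1 t (dist (γ s1) (η t)) := by
  set ls : ℝ → ℝ := fun s => dist (γ s) (η t) with hls
  set c1 := dist (γ s1) (η t) with hc1
  have htpos := ht.1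
  have htI : t ∈ Icc (0 : ℝ) (dist z y) := ⟨ht.1.le, ht.2⟩
  have hzt : dist z (η t) = t := geod_left hη htI
  -- limit of `ls`
  have hsmall : ∀ᶠ s in 𝓝[>] (0 : ℝ), 0 < s ∧ s < s1 := by
    have h1 : Ioo (0 : ℝ) s1 ∈ 𝓝[>] (0 : ℝ) := Ioo_mem_nhdsGT hs1.1
    exact h1
  have hls_lim : Tendsto ls (𝓝[>] 0) (𝓝 t) := by
    have hid : Tendsto (fun s : ℝ => s) (𝓝[>] 0) (𝓝 0) := nhdsWithin_le_nhds
    have hl : Tendsto (fun s : ℝ => t - s) (𝓝[>] 0) (𝓝 t) := by
      simpa using hid.const_sub t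
    have hu : Tendsto (fun s : ℝ => t + s) (𝓝[>] 0) (𝓝 t) := by
      simpa using hid.const_add t
    refine tendsto_of_tendsto_of_tendsto_of_le_of_le' hl hu ?_ ?_
    · filter_upwards [hsmall] with s hs
      have h1 := dist_triangle z (γ s) (η t)
      rw [geod_left hγ ⟨hs.1.le, hs.2.le.trans hs1.2⟩, hzt] at h1
      simp only [hls]
      linarith
    · filter_upwards [hsmall] with s hs
      have h1 := dist_triangle (γ s) z (η t)
      rw [dist_comm (γ s) z, geod_left hγ ⟨hs.1.le, hs.2.le.trans hs1.2⟩, hzt] at h1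
      simp only [hls]
      linarith
  have hls_big : ∀ᶠ s in 𝓝[>] (0 : ℝ), 0 < ls s ∧ ε * s ≤ ls s := by
    have h1 : ∀ᶠ s in 𝓝[>] (0 : ℝ), t / 2 < ls s :=
      hls_lim.eventually (lt_mem_nhds (by linarith))
    have h2 : ∀ᶠ s in 𝓝[>] (0 : ℝ), s < t / (2 * ε) := by
      have : Iio (t / (2 * ε)) ∈ 𝓝 (0 : ℝ) := Iio_mem_nhds (by positivity)
      exact nhdsWithin_le_nhds this
    filter_upwards [h1, h2] with s h3 h4
    refine ⟨by linarith, ?_⟩
    have : ε * s ≤ ε * (t / (2 * ε)) := mul_le_mul_of_nonneg_left h4.le hε.le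
    have e : ε * (t / (2 * ε)) = t / 2 := by field_simp
    linarith
  -- the limit of the right-hand side
  have hR : Tendsto (fun s => cc (s1 - s) (ls s) c1) (𝓝[>] 0) (𝓝 (cc s1 t c1)) := by
    have hid : Tendsto (fun s : ℝ => s) (𝓝[>] 0) (𝓝 0) := nhdsWithin_le_nhds
    have h1 : Tendsto (fun s : ℝ => s1 - s) (𝓝[>] (0 : ℝ)) (𝓝 s1) := by
      simpa using hid.const_sub s1
    exact cc_lim hCC hs1.1 htpos h1 hls_lim
  have hp := tendsto_sinh_div (1 / 2)
  have hq := tendsto_sinh_div (ε / 2)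
  have hp1 := tendsto_sinh_div 1
  have hq1 := tendsto_sinh_div ε
  have hid : Tendsto (fun s : ℝ => s) (𝓝[>] 0) (𝓝 0) := nhdsWithin_le_nhds
  have hRHS := rhs_lim (A := A) (K := Λ / 2 * (1 + ε) ^ 2) hp hq hp1 hq1 hR hid
  have hLHS : Tendsto (fun s : ℝ => (1 - ε * s / ls s) * (A - ε ^ 2)
      + ε / ls s * (g (η t) - g z) - Λ / 2 * ε * ls s) (𝓝[>] 0)
      (𝓝 ((1 - ε * 0 / t) * (A - ε ^ 2) + ε / t * (g (η t) - g z) - Λ / 2 * ε * t)) := by
    refine Tendsto.sub (Tendsto.add ?_ ?_) (hls_lim.const_mul _)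
    · exact (((hid.const_mul ε).div hls_lim htpos.ne').const_sub 1).mul_const _
    · exact (tendsto_const_nhds.div hls_lim htpos.ne').mul_const _
  have hle := le_of_tendsto_of_tendsto hLHS hRHS ?_
  · have h1 : ε * ((g (η t) - g z) / t - Λ / 2 * t - ε - A * ε / 2)
        ≤ ε * (A * cc s1 t c1) := by
      have e1 : (1 - ε * 0 / t) * (A - ε ^ 2) + ε / t * (g (η t) - g z) - Λ / 2 * ε * t
        = A - ε ^ 2 + ε * ((g (η t) - g z) / t) - Λ / 2 * ε * t := by
        field_simp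
        ring
      rw [e1] at hle
      nlinarith
    exact le_of_mul_le_mul_left h1 hε
  · filter_upwards [hsmall, hls_big] with s hs hl
    obtain ⟨ζ, hζ⟩ := hSp.geo (γ s) (η t)
    have hs0 := hs.1
    have hsI : s ∈ Icc (0 : ℝ) (dist z w) := ⟨hs.1.le, hs.2.le.trans hs1.2⟩
    have hs1I : s1 ∈ Icc (0 : ℝ) (dist z w) := ⟨hs1.1.le, hs1.2⟩
    have hεsI : ε * s ∈ Icc (0 : ℝ) (dist (γ s) (η t)) := ⟨by positivity, hl.2⟩
    have hzs : dist z (γ s) = s := geod_left hγ hsI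
    have hss1 : dist (γ s) (γ s1) = s1 - s := geod_dist hγ hsI hs1I hs.2.le
    have hv1 : dist (γ s) (ζ (ε * s)) = ε * s := geod_left hζ hεsI
    have hv2 : dist (ζ (ε * s)) (η t) = ls s - ε * s := geod_right hζ hεsI
    set v := ζ (ε * s) with hv
    have hHG1 := hHG X hSp.cb z (γ s) (γ s1) v (η t)
      (geod_btw hγ hs.1.le hs.2.le hs1.2) (geod_btw_end hζ hεsI)
      (by
        intro h
        rw [h, dist_self] at hss1
        linarith)
      (by
        intro h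
        have : ls s = 0 := by simp only [hls]; rw [h, dist_self]
        linarith)
    rw [hzs, hss1, hv1] at hHG1
    have hd : dist (γ s) (η t) = ls s := rfl
    rw [hd] at hHG1
    -- bound for `|vz|`
    set R := cc (s1 - s) (ls s) c1 with hRdef
    have hvz : dist v z / s ≤ (2 * (sinh (1 / 2 * s) / s) ^ 2
      + 2 * (sinh (ε / 2 * s) / s) ^ 2
      + 4 * (sinh (1 / 2 * s) / s) ^ 2 * (sinh (ε / 2 * s) / s) ^ 2 * s ^ 2)
      + (sinh (1 * s) / s) * (sinh (ε * s) / s) * R + 1 / 2 := by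
      have h1 := half_sq_le_cosh (dist v z)
      have e1 := cosh_half s
      have e2 := cosh_half (ε * s)
      rw [show ε * s / 2 = ε / 2 * s by ring] at e2
      rw [show s / 2 = 1 / 2 * s by ring] at e1
      rw [e1, e2] at hHG1
      have h2 : dist v z / s ≤ (dist v z ^ 2 / 2) / s ^ 2 + 1 / 2 := by
        have h3 : 0 ≤ (dist v z / s - 1) ^ 2 := sq_nonneg _
        have h4 : (dist v z ^ 2 / 2) / s ^ 2 = (dist v z / s) ^ 2 / 2 := by
          field_simp
        rw [h4]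
        nlinarith
      have h3 : (dist v z ^ 2 / 2) / s ^ 2 ≤ ((1 + 2 * sinh (1 / 2 * s) ^ 2)
          * (1 + 2 * sinh (ε / 2 * s) ^ 2) + sinh s * sinh (ε * s) * R - 1) / s ^ 2 := by
        apply div_le_div_of_nonneg_right _ (by positivity)
        linarith
      have h4 : ((1 + 2 * sinh (1 / 2 * s) ^ 2)
          * (1 + 2 * sinh (ε / 2 * s) ^ 2) + sinh s * sinh (ε * s) * R - 1) / s ^ 2
          = (2 * (sinh (1 / 2 * s) / s) ^ 2
      + 2 * (sinh (ε / 2 * s) / s) ^ 2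
      + 4 * (sinh (1 / 2 * s) / s) ^ 2 * (sinh (ε / 2 * s) / s) ^ 2 * s ^ 2)
      + (sinh (1 * s) / s) * (sinh (ε * s) / s) * R := by
        rw [one_mul]
        field_simp
        ring
      rw [h4] at h3
      linarith
    -- upper bound for `g v - g z`
    have hgv : g v - g z ≤ A * dist v z + Λ / 2 * dist v z ^ 2 := by
      rcases eq_or_ne v z with h | h
      · rw [h]; simp
      · have h1 := hsup v h
        have h2 : 0 < dist z v := dist_pos.2 (Ne.symm h)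
        rw [dist_comm v z]
        have h3 := mul_le_mul_of_nonneg_right h1 h2.le
        have e : ((g v - g z) / dist z v - Λ / 2 * dist z v) * dist z v
          = g v - g z - Λ / 2 * dist z v ^ 2 := by
          field_simp
        nlinarith
    have hvz2 : dist v z ≤ (1 + ε) * s := by
      have h1 := dist_triangle v (γ s) z
      rw [dist_comm v (γ s), hv1, dist_comm (γ s) z, hzs] at h1
      linarith
    -- lower bound for `g v - g z`
    have hlp := hl.1
    set τ := ε * s / ls s with hτ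
    have hτ0 : 0 ≤ τ := by positivity
    have hτ1 : τ ≤ 1 := (div_le_one hlp).2 hl.2
    have hτl : τ * ls s = ε * s := by rw [hτ]; field_simp
    have hSC1 := hSC (γ s) (η t) v τ ⟨hτ0, hτ1⟩ (by rw [hv1, hd, hτl])
      (by rw [hv2, hd]; linarith)
    rw [hd] at hSC1
    have hgs := grow hSC hwz hw hγ hsI
    have hgs2 : (A - ε ^ 2) * s ≤ g (γ s) - g z := by
      have : 0 ≤ Λ / 2 * s ^ 2 := by positivity
      linarith
    have hlow : s * ((1 - τ) * (A - ε ^ 2) + ε / ls s * (g (η t) - g z) - Λ / 2 * ε * ls s)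
        ≤ g v - g z := by
      have e1 : s * (ε / ls s * (g (η t) - g z)) = τ * (g (η t) - g z) := by
        rw [hτ]; field_simp
      have e2 : s * (Λ / 2 * ε * ls s) = Λ / 2 * τ * ls s ^ 2 := by
        have : Λ / 2 * τ * ls s ^ 2 = Λ / 2 * (τ * ls s) * ls s := by ring
        rw [this, hτl]; ring
      have h3 : Λ / 2 * τ * (1 - τ) * ls s ^ 2 ≤ Λ / 2 * τ * ls s ^ 2 := by
        have : 0 ≤ Λ / 2 * τ * ls s ^ 2 * τ := by positivity
        nlinarith
      have h4 := mul_le_mul_of_nonneg_left hgs2 (sub_nonneg.2 hτ1)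
      calc s * ((1 - τ) * (A - ε ^ 2) + ε / ls s * (g (η t) - g z) - Λ / 2 * ε * ls s)
          = (1 - τ) * ((A - ε ^ 2) * s) + s * (ε / ls s * (g (η t) - g z))
            - s * (Λ / 2 * ε * ls s) := by ring
        _ = (1 - τ) * ((A - ε ^ 2) * s) + τ * (g (η t) - g z)
            - Λ / 2 * τ * ls s ^ 2 := by rw [e1, e2]
        _ ≤ g v - g z := by linarith
    have hup : g v - g z ≤ s * (A * (dist v z / s) + Λ / 2 * (1 + ε) ^ 2 * s) := by
      have h1 : dist v z ^ 2 ≤ ((1 + ε) * s) ^ 2 := by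
        apply pow_le_pow_left₀ dist_nonneg hvz2
      have h2 : Λ / 2 * dist v z ^ 2 ≤ Λ / 2 * ((1 + ε) * s) ^ 2 :=
        mul_le_mul_of_nonneg_left h1 (by positivity)
      have e : s * (A * (dist v z / s) + Λ / 2 * (1 + ε) ^ 2 * s)
        = A * dist v z + Λ / 2 * ((1 + ε) * s) ^ 2 := by
        field_simp
      rw [e]
      linarith
    have hfin := le_of_mul_le_mul_left (hlow.trans hup) hs0
    refine hfin.trans ?_
    have := mul_le_mul_of_nonneg_left hvz hA.le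
    linarith

theorem st (hHG : T_HG) (hMO : T_MO) (hCC : T_CC) : T_ST := by
  intro X _ D hSp g L Λ hL hΛ hLip hSC z A hA hsup ε hε hε1 w hwz hw γ hγ y η θ hyz hη hθ
    s hs t ht
  have hl : 0 < dist z y := dist_pos.2 (Ne.symm hyz)
  have hlD : dist z y ≤ D := hSp.diam z y
  set l := dist z y with hldef
  have hS : 0 < dist z w := dist_pos.2 (Ne.symm hwz)
  have hAL : A ≤ L + 1 := by
    have h1 : (g w - g z) / dist z w ≤ L := by
      rw [div_le_iff₀ hS]
      have := hLip w z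
      rw [dist_comm w z] at this
      exact (le_abs_self _).trans this
    have h2 : 0 ≤ Λ / 2 * dist z w := by positivity
    have h3 : ε ^ 2 ≤ 1 := by nlinarith
    linarith
  -- for all small `t'`
  have hkey : ∀ e > 0, ∀ᶠ t' in 𝓝[>] (0 : ℝ),
      (θ - e) / l - Λ / 2 * (t' * l) - ε - A * ε / 2 ≤ A * cc s t (dist (γ s) (η t)) := by
    intro e he
    have h1 := hθ η hη e he
    have h2 : ∀ᶠ t' in 𝓝[>] (0 : ℝ), 0 < t' ∧ t' < t / l := by
      have h1 : Ioo (0 : ℝ) (t / l) ∈ 𝓝[>] (0 : ℝ) := Ioo_mem_nhdsGT (div_pos ht.1 hl)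
      exact h1
    filter_upwards [h1, h2] with t' h3 h4
    have h5 : 0 < t' * l := mul_pos h4.1 hl
    have h6 : t' * l < t := by
      have := h4.2
      rwa [lt_div_iff₀ hl] at this
    have h7 := st_key hHG hCC hSp hΛ hSC hA hsup hε hwz hw hγ hη hs
      (t := t' * l) ⟨h5, h6.le.trans ht.2⟩
    have h8 : (θ - e) / l ≤ (g (η (t' * l)) - g z) / (t' * l) := by
      rw [div_le_div_iff₀ hl h5]
      nlinarith
    have h9 : cc s (t' * l) (dist (γ s) (η (t' * l))) ≤ cc s t (dist (γ s) (η t)) := by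
      have hsI : s ∈ Icc (0 : ℝ) (dist z w) := ⟨hs.1.le, hs.2⟩
      have ht'I : t' * l ∈ Icc (0 : ℝ) (dist z y) := ⟨h5.le, h6.le.trans ht.2⟩
      have htI : t ∈ Icc (0 : ℝ) (dist z y) := ⟨ht.1.le, ht.2⟩
      have h10 := hMO X hSp.cb z (γ s) (η t) (γ s) (η (t' * l))
        (geod_btw hγ hs.1.le le_rfl hs.2) (geod_btw hη h5.le h6.le ht.2)
        (by
          intro h
          have := geod_left hγ hsI
          rw [← h, dist_self] at this
          linarith [hs.1])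
        (by
          intro h
          have := geod_left hη ht'I
          rw [← h, dist_self] at this
          linarith)
      rwa [geod_left hγ hsI, geod_left hη ht'I, geod_left hη htI] at h10
    have h11 := mul_le_mul_of_nonneg_left h9 hA.le
    linarith
  have hkey2 : ∀ e > 0, (θ - e) / l - ε - A * ε / 2 ≤ A * cc s t (dist (γ s) (η t)) := by
    intro e he
    have hid : Tendsto (fun s : ℝ => s) (𝓝[>] 0) (𝓝 0) := nhdsWithin_le_nhds
    have h1 : Tendsto (fun t' : ℝ => (θ - e) / l - Λ / 2 * (t' * l) - ε - A * ε / 2) (𝓝[>] 0)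
        (𝓝 ((θ - e) / l - Λ / 2 * (0 * l) - ε - A * ε / 2)) :=
      ((((hid.mul_const l).const_mul (Λ / 2)).const_sub _).sub_const _).sub_const _
    have h2 := le_of_tendsto h1 (hkey e he)
    simpa using h2
  have hkey3 : θ / l - ε - A * ε / 2 ≤ A * cc s t (dist (γ s) (η t)) := by
    refine le_of_forall_pos_le_add fun e he => ?_
    have h1 := hkey2 (e * l) (mul_pos he hl)
    have h2 : (θ - e * l) / l = θ / l - e := by field_simp
    rw [h2] at h1
    linarith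
  have h12 := mul_le_mul_of_nonneg_right hkey3 hl.le
  have e1 : (θ / l - ε - A * ε / 2) * l = θ - l * (ε + A * ε / 2) := by
    field_simp
    ring
  rw [e1] at h12
  have h13 : l * (ε + A * ε / 2) ≤ D * (2 + L) * ε := by
    have h14 : ε + A * ε / 2 ≤ (2 + L) * ε := by nlinarith
    have h15 : 0 ≤ ε + A * ε / 2 := by positivity
    calc l * (ε + A * ε / 2) ≤ D * (ε + A * ε / 2) := mul_le_mul_of_nonneg_right hlD h15
      _ ≤ D * ((2 + L) * ε) :=
        mul_le_mul_of_nonneg_left h14 (by linarith [hSp.one_le])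
      _ = D * (2 + L) * ε := by ring
  nlinarith

end Pool.Agent.H29.AL
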